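import Mathlib

set_option autoImplicit false

namespace Pool.Agent.Results.MP_1d99bd_co.GeodesicFlipsCommonEdge

/-- The edges (sides and diagonals) of the convex `n`-gon whose vertices are `0, 1, ..., n-1` in
cyclic order; an edge is stored as the pair of its end points in increasing order. -/
abbrev Edge (n : ℕ) := {e : Fin n × Fin n // e.1 < e.2}

/-- Two edges cross when they meet in an interior point of both: their end points are four
distinct vertices which alternate around the polygon. -/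
def Crosses {n : ℕ} (e f : Edge n) : Prop :=
  (e.1.1 < f.1.1 ∧ f.1.1 < e.1.2 ∧ e.1.2 < f.1.2) ∨
    (f.1.1 < e.1.1 ∧ e.1.1 < f.1.2 ∧ f.1.2 < e.1.2)

/-- A set of edges without `k + 1` mutually crossing edges. -/
def CrossFree {n : ℕ} (k : ℕ) (T : Finset (Edge n)) : Prop :=
  ∀ S ⊆ T, S.card = k + 1 → ¬ (S : Set (Edge n)).Pairwise Crosses

/-- The `k`-triangulations of the convex `n`-gon: the inclusion-maximal sets of edges without
`k + 1` mutually crossing edges. -/
def KTriangulation (n k : ℕ) := {T : Finset (Edge n) // Maximal (CrossFree k) T}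

/-- The flip graph: two `k`-triangulations are adjacent when they differ by the exchange of
exactly one edge. -/
def flipGraph (n k : ℕ) : SimpleGraph (KTriangulation n k) where
  Adj S T := (S.1 \ T.1).card = 1 ∧ (T.1 \ S.1).card = 1
  symm := ⟨fun _ _ h => ⟨h.2, h.1⟩⟩
  loopless := ⟨fun S h => by simp at h⟩

/-! ### A criterion for `k = 2` -/

lemma crossFree_two {n : ℕ} {T : Finset (Edge n)} :
    CrossFree 2 T ↔ ∀ e ∈ T, ∀ f ∈ T, ∀ g ∈ T,
      e.1.1 < f.1.1 → f.1.1 < g.1.1 → g.1.1 < e.1.2 → e.1.2 < f.1.2 → f.1.2 < g.1.2 → False := by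
  classical
  constructor
  · intro h e he f hf g hg h1 h2 h3 h4 h5
    have hef : e ≠ f := by rintro rfl; exact lt_irrefl _ h1
    have hfg : f ≠ g := by rintro rfl; exact lt_irrefl _ h2
    have heg : e ≠ g := by rintro rfl; exact lt_asymm h1 h2
    refine h {e, f, g} ?_ ?_ ?_
    · intro x hx
      simp only [Finset.mem_insert, Finset.mem_singleton] at hx
      rcases hx with rfl | rfl | rfl <;> assumption
    · rw [Finset.card_eq_three]; exact ⟨e, f, g, hef, heg, hfg, rfl⟩
    · have cef : Crosses e f := Or.inl ⟨h1, h2.trans h3, h4⟩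
      have cfg : Crosses f g := Or.inl ⟨h2, h3.trans h4, h5⟩
      have ceg : Crosses e g := Or.inl ⟨h1.trans h2, h3, h4.trans h5⟩
      have sy : ∀ {x y : Edge n}, Crosses x y → Crosses y x := fun h => h.symm
      intro x hx y hy hxy
      simp only [Finset.coe_insert, Finset.coe_singleton, Set.mem_insert_iff,
        Set.mem_singleton_iff] at hx hy
      rcases hx with rfl | rfl | rfl <;> rcases hy with rfl | rfl | rfl <;>
        first | exact absurd rfl hxy | assumption | (apply sy; assumption)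
  · intro h S hS hcard hpair
    obtain ⟨e, f, g, hef, heg, hfg, rfl⟩ := Finset.card_eq_three.1 hcard
    have he : e ∈ T := hS (by simp)
    have hf : f ∈ T := hS (by simp)
    have hg : g ∈ T := hS (by simp)
    have cef : Crosses e f := hpair (by simp) (by simp) hef
    have ceg : Crosses e g := hpair (by simp) (by simp) heg
    have cfg : Crosses f g := hpair (by simp) (by simp) hfg
    rcases cef with ⟨a1, a2, a3⟩ | ⟨a1, a2, a3⟩ <;> rcases ceg with ⟨b1, b2, b3⟩ | ⟨b1, b2, b3⟩ <;>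
      rcases cfg with ⟨c1, c2, c3⟩ | ⟨c1, c2, c3⟩
    · exact h e he f hf g hg a1 c1 b2 a3 c3
    · exact h e he g hg f hf b1 c1 a2 b3 c3
    · exact absurd (c1.trans b1) (lt_asymm a1)
    · exact h g hg e he f hf b1 a1 c2 b3 a3
    · exact h f hf e he g hg a1 b1 c2 a3 b3
    · exact absurd (c1.trans a1) (lt_asymm b1)
    · exact h f hf g hg e he c1 b1 a2 c3 b3
    · exact h g hg f hf e he c1 a1 b2 c3 a3

/-- The set of edges of the octagon encoded by a bit mask. -/
def tri (m : ℕ) : Finset (Edge 8) :=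
  Finset.univ.filter fun e => m.testBit (8 * e.1.1.val + e.1.2.val) = true

lemma mem_tri {m : ℕ} {e : Edge 8} : e ∈ tri m ↔ m.testBit (8 * e.1.1.val + e.1.2.val) = true := by
  simp [tri]

/-- Decidable form of: no three mutually crossing edges. -/
def good (m : ℕ) : Bool := decide (∀ p₀ p₁ : Fin 8, p₀ < p₁ → ∀ p₂, p₁ < p₂ → ∀ p₃, p₂ < p₃ →
  m.testBit (8 * p₀.val + p₃.val) = true → ∀ p₄, p₃ < p₄ →
  m.testBit (8 * p₁.val + p₄.val) = true → ∀ p₅, p₄ < p₅ →
  m.testBit (8 * p₂.val + p₅.val) = true → False)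

/-- Decidable form of: every further edge creates three mutually crossing edges. -/
def full (m : ℕ) : Bool := decide (∀ a b : Fin 8, a < b → m.testBit (8 * a.val + b.val) = false →
  ∃ c d : Fin 8, c < d ∧ m.testBit (8 * c.val + d.val) = true ∧
    ((a < c ∧ c < b ∧ b < d) ∨ (c < a ∧ a < d ∧ d < b)) ∧
    ∃ e f : Fin 8, e < f ∧ m.testBit (8 * e.val + f.val) = true ∧
      ((a < e ∧ e < b ∧ b < f) ∨ (e < a ∧ a < f ∧ f < b)) ∧
      ((c < e ∧ e < d ∧ d < f) ∨ (e < c ∧ c < f ∧ f < d)))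

lemma crossFree_of_good {m : ℕ} (h : good m = true) : CrossFree 2 (tri m) := by
  rw [crossFree_two]
  intro e he f hf g hg h1 h2 h3 h4 h5
  rw [mem_tri] at he hf hg
  exact of_decide_eq_true h _ _ h1 _ h2 _ h3 he _ h4 hf _ h5 hg

lemma maximal_of {m : ℕ} (h : good m = true) (h' : full m = true) :
    Maximal (CrossFree 2) (tri m) := by
  classical
  refine ⟨crossFree_of_good h, ?_⟩
  intro U hU hle x hx
  by_contra hxm
  have hx' : m.testBit (8 * x.1.1.val + x.1.2.val) = false := by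
    rw [mem_tri] at hxm; simpa using hxm
  obtain ⟨c, d, hcd, m1, k1, e, f, hef, m2, k2, k3⟩ :=
    of_decide_eq_true h' x.1.1 x.1.2 x.2 hx'
  set y : Edge 8 := ⟨(c, d), hcd⟩ with hy
  set z : Edge 8 := ⟨(e, f), hef⟩ with hz
  have hyU : y ∈ U := hle (mem_tri.2 m1)
  have hzU : z ∈ U := hle (mem_tri.2 m2)
  have cxy : Crosses x y := k1
  have cxz : Crosses x z := k2
  have cyz : Crosses y z := k3
  have irr : ∀ w : Edge 8, ¬ Crosses w w := by
    rintro w (⟨h, -, -⟩ | ⟨h, -, -⟩) <;> exact lt_irrefl _ h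
  have hxy : x ≠ y := by rintro h; rw [← h] at cxy; exact irr _ cxy
  have hxz : x ≠ z := by rintro h; rw [← h] at cxz; exact irr _ cxz
  have hyz : y ≠ z := by rintro h; rw [← h] at cyz; exact irr _ cyz
  have sy : ∀ {x y : Edge 8}, Crosses x y → Crosses y x := fun h => h.symm
  refine hU {x, y, z} ?_ ?_ ?_
  · intro w hw
    simp only [Finset.mem_insert, Finset.mem_singleton] at hw
    rcases hw with rfl | rfl | rfl <;> assumption
  · rw [Finset.card_eq_three]; exact ⟨x, y, z, hxy, hxz, hyz, rfl⟩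
  · intro a ha b hb hab
    simp only [Finset.coe_insert, Finset.coe_singleton, Set.mem_insert_iff,
      Set.mem_singleton_iff] at ha hb
    rcases ha with rfl | rfl | rfl <;> rcases hb with rfl | rfl | rfl <;>
      first | exact absurd rfl hab | assumption | (apply sy; assumption)

/-! ### Five 2-triangulations of the octagon

All contain the sixteen edges of length at most two. The remaining six edges are listed. -/

/-- `03, 04, 05, 14, 36, 37` -/
def T₀ : KTriangulation 8 2 :=
  ⟨tri 36240319596502270, maximal_of (by decide +kernel) (by decide +kernel)⟩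
/-- `03, 04, 05, 14, 16, 36` -/
def T₁ : KTriangulation 8 2 :=
  ⟨tri 36240317449035006, maximal_of (by decide +kernel) (by decide +kernel)⟩
/-- `03, 04, 05, 16, 26, 36` -/
def T₂ : KTriangulation 8 2 :=
  ⟨tri 36240317453225214, maximal_of (by decide +kernel) (by decide +kernel)⟩
/-- `03, 05, 16, 25, 26, 36` -/
def T₃ : KTriangulation 8 2 :=
  ⟨tri 36240317455322350, maximal_of (by decide +kernel) (by decide +kernel)⟩
/-- `03, 16, 25, 26, 36, 37` -/
def T₄ : KTriangulation 8 2 :=
  ⟨tri 36240319602805966, maximal_of (by decide +kernel) (by decide +kernel)⟩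

/-- The edge `ab`. -/
def ed (a b : Fin 8) (h : a < b) : Edge 8 := ⟨(a, b), h⟩

lemma sdiff_eq {m m' : ℕ} {a b : Fin 8} (h : a < b)
    (hd : ∀ e : Edge 8, (m.testBit (8 * e.1.1.val + e.1.2.val) = true ∧
      ¬ m'.testBit (8 * e.1.1.val + e.1.2.val) = true) ↔ e = ed a b h) :
    tri m \ tri m' = {ed a b h} := by
  ext e
  rw [Finset.mem_sdiff, mem_tri, mem_tri, Finset.mem_singleton]
  exact hd e

lemma adj_of {S T : KTriangulation 8 2} {e f : Edge 8} (h : S.1 \ T.1 = {e})
    (h' : T.1 \ S.1 = {f}) : (flipGraph 8 2).Adj S T := by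
  refine ⟨?_, ?_⟩
  · rw [h]; rfl
  · rw [h']; rfl

lemma a01 : (flipGraph 8 2).Adj T₀ T₁ :=
  adj_of (sdiff_eq (a := 3) (b := 7) (by decide) (by decide +kernel))
    (sdiff_eq (a := 1) (b := 6) (by decide) (by decide +kernel))

lemma a12 : (flipGraph 8 2).Adj T₁ T₂ :=
  adj_of (sdiff_eq (a := 1) (b := 4) (by decide) (by decide +kernel))
    (sdiff_eq (a := 2) (b := 6) (by decide) (by decide +kernel))

lemma a23 : (flipGraph 8 2).Adj T₂ T₃ :=
  adj_of (sdiff_eq (a := 0) (b := 4) (by decide) (by decide +kernel))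
    (sdiff_eq (a := 2) (b := 5) (by decide) (by decide +kernel))

lemma a34 : (flipGraph 8 2).Adj T₃ T₄ :=
  adj_of (sdiff_eq (a := 0) (b := 5) (by decide) (by decide +kernel))
    (sdiff_eq (a := 3) (b := 7) (by decide) (by decide +kernel))

/-! ### The lower bound on the distance -/

lemma sdiff_le_length {S T : KTriangulation 8 2} (p : (flipGraph 8 2).Walk S T) :
    (S.1 \ T.1).card ≤ p.length := by
  classical
  induction p with
  | nil => simp
  | @cons u v w h p ih =>
    have h1 : u.1 \ w.1 ⊆ (u.1 \ v.1) ∪ (v.1 \ w.1) := by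
      intro x hx
      simp only [Finset.mem_union, Finset.mem_sdiff] at hx ⊢
      tauto
    have h2 := (Finset.card_le_card h1).trans (Finset.card_union_le _ _)
    have h3 : (u.1 \ v.1).card = 1 := h.1
    rw [SimpleGraph.Walk.length_cons]
    omega

/-- The edge `pq` lies in the set obtained from `T₀` by exchanging `ab` for `cd`. -/
def inB (a b c d p q : Fin 8) : Bool :=
  (p == c && q == d) ||
    ((36240319596502270 : ℕ).testBit (8 * p.val + q.val) && !(p == a && q == b))

lemma inB_spec {a x : Edge 8} {p q : Fin 8} (h : p < q)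
    (hb : inB a.1.1 a.1.2 x.1.1 x.1.2 p q = true) :
    (⟨(p, q), h⟩ : Edge 8) = x ∨ ((⟨(p, q), h⟩ : Edge 8) ∈ T₀.1 ∧ (⟨(p, q), h⟩ : Edge 8) ≠ a) := by
  simp only [inB, Bool.or_eq_true, Bool.and_eq_true, beq_iff_eq, Bool.not_eq_true',
    Bool.and_eq_false_iff, beq_eq_false_iff_ne] at hb
  rcases hb with ⟨h1, h2⟩ | ⟨h1, h2⟩
  · left
    apply Subtype.ext
    exact Prod.ext h1 h2
  · right
    refine ⟨mem_tri.2 h1, ?_⟩
    intro he
    rcases h2 with h2 | h2
    · exact h2 (by rw [← he])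
    · exact h2 (by rw [← he])

/-- Decidable form of: the exchange creates three mutually crossing edges. -/
def bad (a b c d : Fin 8) : Bool :=
  decide (∃ p₀ p₁ : Fin 8, p₀ < p₁ ∧ ∃ p₂, p₁ < p₂ ∧ ∃ p₃, p₂ < p₃ ∧ inB a b c d p₀ p₃ = true ∧
        ∃ p₄, p₃ < p₄ ∧ inB a b c d p₁ p₄ = true ∧ ∃ p₅, p₄ < p₅ ∧ inB a b c d p₂ p₅ = true)

lemma key : ∀ a b c d : Fin 8,
      (36240319596502270 : ℕ).testBit (8 * a.val + b.val) = true →
      (36240319602805966 : ℕ).testBit (8 * a.val + b.val) = false →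
      (36240319602805966 : ℕ).testBit (8 * c.val + d.val) = true →
      (36240319596502270 : ℕ).testBit (8 * c.val + d.val) = false →
      bad a b c d = true := by
  decide +kernel

/-- Exchanging one of `04, 05, 14` for one of `16, 25, 26` in `T₀` creates three mutually
crossing edges. -/
lemma no_exchange (a x : Edge 8) (ha : a ∈ T₀.1) (ha' : a ∉ T₄.1) (hx : x ∈ T₄.1)
    (hx' : x ∉ T₀.1) : ∃ e f g : Edge 8, (e = x ∨ (e ∈ T₀.1 ∧ e ≠ a)) ∧
      (f = x ∨ (f ∈ T₀.1 ∧ f ≠ a)) ∧ (g = x ∨ (g ∈ T₀.1 ∧ g ≠ a)) ∧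
      e.1.1 < f.1.1 ∧ f.1.1 < g.1.1 ∧ g.1.1 < e.1.2 ∧ e.1.2 < f.1.2 ∧ f.1.2 < g.1.2 := by
  have b1 : (36240319596502270 : ℕ).testBit (8 * a.1.1.val + a.1.2.val) = true := mem_tri.1 ha
  have b2 : (36240319602805966 : ℕ).testBit (8 * a.1.1.val + a.1.2.val) = false := by
    have : ¬ (36240319602805966 : ℕ).testBit (8 * a.1.1.val + a.1.2.val) = true :=
      fun h => ha' (mem_tri.2 h)
    simpa using this
  have b3 : (36240319602805966 : ℕ).testBit (8 * x.1.1.val + x.1.2.val) = true := mem_tri.1 hx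
  have b4 : (36240319596502270 : ℕ).testBit (8 * x.1.1.val + x.1.2.val) = false := by
    have : ¬ (36240319596502270 : ℕ).testBit (8 * x.1.1.val + x.1.2.val) = true :=
      fun h => hx' (mem_tri.2 h)
    simpa using this
  obtain ⟨p₀, p₁, h01, p₂, h12, p₃, h23, k1, p₄, h34, k2, p₅, h45, k3⟩ :=
    of_decide_eq_true (key a.1.1 a.1.2 x.1.1 x.1.2 b1 b2 b3 b4)
  have l1 : p₀ < p₃ := h01.trans (h12.trans h23)
  have l2 : p₁ < p₄ := h12.trans (h23.trans h34)
  have l3 : p₂ < p₅ := h23.trans (h34.trans h45)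
  exact ⟨⟨(p₀, p₃), l1⟩, ⟨(p₁, p₄), l2⟩, ⟨(p₂, p₅), l3⟩, inB_spec l1 k1, inB_spec l2 k2,
    inB_spec l3 k3, h01, h12, h23, h34, h45⟩

lemma card04 : (T₀.1 \ T₄.1).card = 3 := by
  have : T₀.1 \ T₄.1 = {ed 0 4 (by decide), ed 0 5 (by decide), ed 1 4 (by decide)} := by
    ext e
    rw [Finset.mem_sdiff]
    simp only [T₀, T₄, mem_tri, Finset.mem_insert, Finset.mem_singleton]
    revert e
    decide +kernel
  rw [this]
  decide +kernel

lemma four_le' {S T : KTriangulation 8 2} (p : (flipGraph 8 2).Walk S T) (hS : S = T₀)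
    (hT : T = T₄) : 4 ≤ p.length := by
  classical
  have hc := card04
  cases p with
  | nil =>
    exfalso
    rw [← hS, ← hT] at hc
    simp at hc
  | @cons _ A _ h p =>
    subst hS hT
    rw [SimpleGraph.Walk.length_cons]
    by_contra hlt
    have hA : (A.1 \ T₄.1).card ≤ 2 := (sdiff_le_length p).trans (by omega)
    obtain ⟨h1, h2⟩ := h
    obtain ⟨a, ha⟩ := Finset.card_eq_one.1 h1
    obtain ⟨x, hx⟩ := Finset.card_eq_one.1 h2
    have ha1 : a ∈ T₀.1 ∧ a ∉ A.1 := by
      rw [← Finset.mem_sdiff, ha]; exact Finset.mem_singleton_self _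
    have hx1 : x ∈ A.1 ∧ x ∉ T₀.1 := by
      rw [← Finset.mem_sdiff, hx]; exact Finset.mem_singleton_self _
    have hsub : ∀ e ∈ T₀.1, e ≠ a → e ∈ A.1 := by
      intro e he hea
      by_contra heA
      have : e ∈ T₀.1 \ A.1 := Finset.mem_sdiff.2 ⟨he, heA⟩
      rw [ha, Finset.mem_singleton] at this
      exact hea this
    -- `a` is not in `T₄`
    have ha4 : a ∉ T₄.1 := by
      intro ha4
      have : T₀.1 \ T₄.1 ⊆ A.1 \ T₄.1 := by
        intro e he
        rw [Finset.mem_sdiff] at he ⊢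
        refine ⟨hsub e he.1 ?_, he.2⟩
        rintro rfl; exact he.2 ha4
      have := Finset.card_le_card this
      omega
    -- `x` is in `T₄`
    have hx4 : x ∈ T₄.1 := by
      by_contra hx4
      have : insert x ((T₀.1 \ T₄.1).erase a) ⊆ A.1 \ T₄.1 := by
        intro e he
        rw [Finset.mem_insert, Finset.mem_erase, Finset.mem_sdiff] at he
        rw [Finset.mem_sdiff]
        rcases he with rfl | ⟨he1, he2, he3⟩
        · exact ⟨hx1.1, hx4⟩
        · exact ⟨hsub e he2 he1, he3⟩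
      have h3 := Finset.card_le_card this
      rw [Finset.card_insert_of_notMem, Finset.card_erase_of_mem, hc] at h3
      · omega
      · exact Finset.mem_sdiff.2 ⟨ha1.1, ha4⟩
      · intro h4
        exact hx1.2 (Finset.mem_sdiff.1 (Finset.mem_of_mem_erase h4)).1
    obtain ⟨e, f, g, he, hf, hg, k1, k2, k3, k4, k5⟩ := no_exchange a x ha1.1 ha4 hx4 hx1.2
    have inA : ∀ e : Edge 8, (e = x ∨ (e ∈ T₀.1 ∧ e ≠ a)) → e ∈ A.1 := by
      rintro e (rfl | ⟨h3, h4⟩)
      · exact hx1.1
      · exact hsub e h3 h4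
    exact crossFree_two.1 A.2.prop e (inA e he) f (inA f hf) g (inA g hg) k1 k2 k3 k4 k5

lemma four_le (p : (flipGraph 8 2).Walk T₀ T₄) : 4 ≤ p.length := four_le' p rfl rfl

/-- There are two 2-triangulations of the convex octagon, a common edge `v` of both, and a
shortest path between them in the flip graph which flips `v`. -/
theorem result : ∃ (S T : KTriangulation 8 2) (v : Edge 8) (p : (flipGraph 8 2).Walk S T),
    v ∈ S.1 ∧ v ∈ T.1 ∧ p.length = (flipGraph 8 2).dist S T ∧
      ∃ d ∈ p.darts, v ∈ d.fst.1 ∧ v ∉ d.snd.1 := by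
  refine ⟨T₀, T₄, ed 3 7 (by decide),
    .cons a01 (.cons a12 (.cons a23 (.cons a34 .nil))), ?_, ?_, ?_, ?_⟩
  · exact mem_tri.2 (by decide +kernel)
  · exact mem_tri.2 (by decide +kernel)
  · apply le_antisymm
    · have hr : (flipGraph 8 2).Reachable T₀ T₄ :=
        ⟨.cons a01 (.cons a12 (.cons a23 (.cons a34 .nil)))⟩
      obtain ⟨q, hq⟩ := hr.exists_walk_length_eq_dist
      rw [← hq]
      exact four_le q
    · exact SimpleGraph.dist_le _
  · refine ⟨⟨(T₀, T₁), a01⟩, by simp, mem_tri.2 (by decide +kernel), ?_⟩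
    intro h
    have := mem_tri.1 h
    revert this
    decide +kernel

end Pool.Agent.Results.MP_1d99bd_co.GeodesicFlipsCommonEdge
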